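import Mathlib

/-!
# FD: multiplicative weights

If every weighting of `V` admits a set `B` with the property `P` and of weight at most `δ` times the total weight, then
there are `N` sets with the property `P` such that every element is in at most `3 δ N` of them (`log |V| ≤ δ N`).
-/

set_option autoImplicit false

namespace Pool.Agent.Helper21.FD

open Finset

/-- The weights after the sets in the list. -/
private noncomputable def wt {V : Type} [DecidableEq V] (l : List (Finset V)) (v : V) : ℝ :=
  Real.exp ((l.filter (fun B => decide (v ∈ B))).length : ℝ)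

private theorem wt_cons {V : Type} [DecidableEq V] (l : List (Finset V)) (B : Finset V) (v : V) :
    wt (B :: l) v = wt l v * (if v ∈ B then Real.exp 1 else 1) := by
  unfold wt
  by_cases h : v ∈ B
  · simp [h, Real.exp_add]
  · simp [h]

private theorem exists_list {V : Type} [Fintype V] [DecidableEq V] (P : Finset V → Prop) (δ : ℝ)
    (H : ∀ w : V → ℝ, (∀ v, 0 ≤ w v) → ∃ B : Finset V, P B ∧ ∑ v ∈ B, w v ≤ δ * ∑ v, w v)
    (N : ℕ) : ∃ l : List (Finset V), l.length = N ∧ (∀ B ∈ l, P B) ∧
      ∑ v, wt l v ≤ (Fintype.card V : ℝ) * Real.exp (2 * δ * N) := by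
  induction N with
  | zero =>
    refine ⟨[], rfl, by simp, ?_⟩
    simp [wt]
  | succ N ih =>
    obtain ⟨l, hl, hP, hs⟩ := ih
    obtain ⟨B, hB, hw⟩ := H (wt l) (fun v => (Real.exp_pos _).le)
    refine ⟨B :: l, by simp [hl], ?_, ?_⟩
    · intro C hC
      rcases List.mem_cons.1 hC with h | h
      · rw [h]; exact hB
      · exact hP C h
    · have h1 : ∑ v, wt (B :: l) v = ∑ v, wt l v + (Real.exp 1 - 1) * ∑ v ∈ B, wt l v := by
        have h2 : ∑ v ∈ B, wt l v = ∑ v, (if v ∈ B then wt l v else 0) := by
          rw [Finset.sum_ite_mem, Finset.univ_inter]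
        rw [h2, Finset.mul_sum, ← Finset.sum_add_distrib]
        refine Finset.sum_congr rfl fun v _ => ?_
        rw [wt_cons]
        split_ifs <;> ring
      have he : Real.exp 1 - 1 ≤ 2 := by
        have := Real.exp_one_lt_d9
        linarith
      have he0 : 0 ≤ Real.exp 1 - 1 := by
        have := Real.add_one_le_exp (1 : ℝ)
        linarith
      have hnn : 0 ≤ ∑ v ∈ B, wt l v := Finset.sum_nonneg fun v _ => (Real.exp_pos _).le
      have hΦ : 0 ≤ ∑ v, wt l v := Finset.sum_nonneg fun v _ => (Real.exp_pos _).le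
      have h3 : ∑ v, wt (B :: l) v ≤ (∑ v, wt l v) * Real.exp (2 * δ) := by
        rw [h1]
        have h4 : (Real.exp 1 - 1) * ∑ v ∈ B, wt l v ≤ 2 * (δ * ∑ v, wt l v) := by
          calc (Real.exp 1 - 1) * ∑ v ∈ B, wt l v ≤ 2 * ∑ v ∈ B, wt l v :=
                mul_le_mul_of_nonneg_right he hnn
            _ ≤ 2 * (δ * ∑ v, wt l v) := by linarith
        have h5 : 2 * δ + 1 ≤ Real.exp (2 * δ) := Real.add_one_le_exp _
        nlinarith [mul_le_mul_of_nonneg_left h5 hΦ]
      refine h3.trans ?_
      calc (∑ v, wt l v) * Real.exp (2 * δ)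
          ≤ ((Fintype.card V : ℝ) * Real.exp (2 * δ * N)) * Real.exp (2 * δ) :=
            mul_le_mul_of_nonneg_right hs (Real.exp_pos _).le
        _ = (Fintype.card V : ℝ) * Real.exp (2 * δ * (N + 1 : ℕ)) := by
            rw [mul_assoc, ← Real.exp_add]
            push_cast
            ring_nf

private theorem card_filter_get {V : Type} [DecidableEq V] (v : V) :
    ∀ l : List (Finset V), ((univ : Finset (Fin l.length)).filter (fun i => v ∈ l.get i)).card =
      (l.filter (fun B => decide (v ∈ B))).length := by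
  intro l
  induction l with
  | nil => simp
  | cons B l ih =>
    have h1 : ((univ : Finset (Fin (B :: l).length)).filter
        (fun i => v ∈ (B :: l).get i)).card =
        (if v ∈ B then 1 else 0) +
          ((univ : Finset (Fin l.length)).filter (fun i => v ∈ l.get i)).card := by
      rw [Finset.card_filter, Finset.card_filter]
      simp only [List.length_cons]
      rw [Fin.sum_univ_succ]
      rfl
    rw [h1, ih]
    by_cases h : v ∈ B
    · simp [h]; ring
    · simp [h]

/-- **Multiplicative weights.** -/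
theorem mw (V : Type) [Fintype V] [DecidableEq V] (P : Finset V → Prop) (δ : ℝ) (N : ℕ)
    (H : ∀ w : V → ℝ, (∀ v, 0 ≤ w v) → ∃ B : Finset V, P B ∧ ∑ v ∈ B, w v ≤ δ * ∑ v, w v)
    (hN : Real.log (Fintype.card V) ≤ δ * N) :
    ∃ B : Fin N → Finset V, (∀ i, P (B i)) ∧
      ∀ v, ((univ.filter (fun i => v ∈ B i)).card : ℝ) ≤ 3 * δ * N := by
  obtain ⟨l, hl, hP, hs⟩ := exists_list P δ H N
  subst hl
  refine ⟨fun i => l.get i, fun i => hP _ (List.get_mem l i), fun v => ?_⟩
  have hn : 0 < Fintype.card V := Fintype.card_pos_iff.2 ⟨v⟩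
  have hn' : (0 : ℝ) < (Fintype.card V : ℝ) := by exact_mod_cast hn
  have h1 : wt l v ≤ (Fintype.card V : ℝ) * Real.exp (2 * δ * l.length) :=
    (Finset.single_le_sum (f := fun v => wt l v) (fun v _ => (Real.exp_pos _).le)
      (Finset.mem_univ v)).trans hs
  have h2 := Real.log_le_log (Real.exp_pos _) h1
  rw [Real.log_exp, Real.log_mul hn'.ne' (Real.exp_pos _).ne', Real.log_exp] at h2
  have h3 : (((univ : Finset (Fin l.length)).filter (fun i => v ∈ l.get i)).card : ℝ) =
      ((l.filter (fun B => decide (v ∈ B))).length : ℝ) := by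
    exact_mod_cast card_filter_get v l
  rw [h3]
  linarith

end Pool.Agent.Helper21.FD
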